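import Pool.Agent.Lib.AA25.All3

namespace Pool.Agent.Results.MP_7ebc2a_al.AlmostAll

open MP7ebc2a

theorem result (ε : ℝ) (hε : 0 < ε) : ∃ N : ℕ, ∀ m d : ℕ, 3 ≤ m → 3 ≤ d → N ≤ d * m →
    (Set.ncard {lam : Fin m → ℕ | Antitone lam ∧ ∑ i, lam i = d * m ∧
      ∃ (V : Type) (_ : AddCommGroup V) (_ : Module ℂ V) (_ : FiniteDimensional ℂ V)
        (ρ : Representation ℂ (GL (Fin m) ℂ) V), IsPolynomialRep ρ ∧ ρ.IsIrreducible ∧
        HasHighestWeight ρ lam ∧ ∀ v : V, (∀ n ∈ Subgroup.normalizer (torus m),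
          ρ (Matrix.SpecialLinearGroup.toGL n) v = v) → v = 0} : ℝ) ≤
      ε * Set.ncard {lam : Fin m → ℕ | Antitone lam ∧ ∑ i, lam i = d * m} := by
  classical
  obtain ⟨M, hM⟩ := AA.all_FIN3 ε hε
  refine ⟨M, fun m d hm h4 hd => ?_⟩
  have h := hM m d hm h4 hd
  rw [← Set.ncard_coe_finset, ← Set.ncard_coe_finset] at h
  refine le_trans (le_of_eq ?_) (h.trans (le_of_eq ?_))
  · refine congrArg _ (congrArg _ (Set.ext fun lam => ?_))
    simp only [AA.Bad, Set.mem_ofPred_eq, Finset.coe_filter, Finset.mem_piAntidiag, Finset.mem_univ,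
      implies_true, and_true, AA.HasInv]
    constructor
    · rintro ⟨a, b, V, _, _, _, ρ, h1, h2, h3, h5⟩
      refine ⟨b, a, fun H => ?_⟩
      obtain ⟨v, v0, v1⟩ := H V ρ h1 h2 h3
      exact v0 (h5 v v1)
    · rintro ⟨b, a, H⟩
      refine ⟨a, b, by_contra fun H' => H fun V _ _ _ ρ h1 h2 h3 => by_contra fun h5 => H'
        ⟨V, _, _, ‹_›, ρ, h1, h2, h3, fun v hv => by_contra fun v0 => h5 ⟨v, v0, hv⟩⟩⟩
  · refine congrArg _ (congrArg _ (congrArg _ (Set.ext fun lam => ?_)))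
    simp [AA.Wt, and_comm]

end Pool.Agent.Results.MP_7ebc2a_al.AlmostAll
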