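import Pool.Agent.Lib.MP_7ebc2a_al.Rep4

namespace Pool.Agent.Results.MP_7ebc2a_al.DistinctParts

open MP7ebc2a

theorem result (m : ℕ) (hm : 6 ≤ m) (lam : Fin m → ℕ) (hl : StrictAnti lam)
    (hd : m ∣ ∑ i, lam i) (V : Type) [AddCommGroup V] [Module ℂ V] [FiniteDimensional ℂ V]
    (ρ : Representation ℂ (GL (Fin m) ℂ) V) (hp : IsPolynomialRep ρ) [ρ.IsIrreducible]
    (hw : HasHighestWeight ρ lam) :
    ∃ v : V, v ≠ 0 ∧ ∀ n ∈ Subgroup.normalizer (torus m),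
      ρ (Matrix.SpecialLinearGroup.toGL n) v = v :=
  invariant_of_strictAnti (gall hm) lam hl hd ρ hp hw

end Pool.Agent.Results.MP_7ebc2a_al.DistinctParts
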