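import Pool.Agent.Lib.MP_7ebc2a_al.Rep5

namespace Pool.Agent.Results.MP_7ebc2a_al.NotFlat

open MP7ebc2a

theorem result (m : ℕ) (hm : 2000 ≤ m) (lam : Fin m → ℕ) (hl : Antitone lam)
    (hd : m ∣ ∑ i, lam i)
    (h1 : lam ⟨44 * m / 100, by omega⟩ + 70000 * (Nat.log 2 m + 1) ≤ lam ⟨m / 100, by omega⟩)
    (h2 : lam ⟨55 * m / 100, by omega⟩ + 70000 * (Nat.log 2 m + 1) ≤ lam ⟨45 * m / 100, by omega⟩)
    (h3 : lam ⟨99 * m / 100, by omega⟩ + 70000 * (Nat.log 2 m + 1) ≤ lam ⟨56 * m / 100, by omega⟩)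
    (V : Type) [AddCommGroup V] [Module ℂ V] [FiniteDimensional ℂ V]
    (ρ : Representation ℂ (GL (Fin m) ℂ) V) (hp : IsPolynomialRep ρ) [ρ.IsIrreducible]
    (hw : HasHighestWeight ρ lam) :
    ∃ v : V, v ≠ 0 ∧ ∀ n ∈ Subgroup.normalizer (torus m),
      ρ (Matrix.SpecialLinearGroup.toGL n) v = v :=
  invariant_of_windows hm lam hl hd _ _ _ _ _ _ (by dsimp only; omega) (by dsimp only; omega)
    (by dsimp only; omega) h1 h2 h3 ρ hp hw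

end Pool.Agent.Results.MP_7ebc2a_al.NotFlat
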