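import Pool.Agent.Lib.MP_7ebc2a_al.Ray6

namespace Pool.Agent.Results.MP_7ebc2a_al.RayStructure

open MP7ebc2a

theorem result (m : ℕ) (hm : 5 ≤ m) : ∃ F₀ F₁ F₂ : Set (Fin m → ℕ),
    (∀ μ ∈ F₀ ∪ F₁ ∪ F₂, ∀ i, μ i ≤ 219 * m ^ 3) ∧
    (∀ μ ∈ F₀, μ ⟨1, by omega⟩ < 218 * m ^ 2 ∨
      μ ⟨0, by omega⟩ < μ ⟨m - 2, by omega⟩ + 218 * m ^ 2) ∧
    (∀ μ ∈ F₁, μ ⟨1, by omega⟩ < 218 * m ^ 2) ∧
    (∀ μ ∈ F₂, μ ⟨0, by omega⟩ < μ ⟨m - 2, by omega⟩ + 218 * m ^ 2) ∧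
    ∀ lam : Fin m → ℕ, Antitone lam → m ∣ ∑ i, lam i →
      ∀ (V : Type) [AddCommGroup V] [Module ℂ V] [FiniteDimensional ℂ V]
        (ρ : Representation ℂ (GL (Fin m) ℂ) V), IsPolynomialRep ρ → ρ.IsIrreducible →
        HasHighestWeight ρ lam →
        ((∀ v : V, (∀ n ∈ Subgroup.normalizer (torus m),
            ρ (Matrix.SpecialLinearGroup.toGL n) v = v) → v = 0) ↔ ∃ c k : ℕ,
          (∃ μ ∈ F₀, ∀ i, lam i = μ i + c) ∨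
          (∃ μ ∈ F₁, ∀ i, lam i = μ i + c + if (i : ℕ) = 0 then 2 * m * k else 0) ∨
          ∃ μ ∈ F₂, ∀ i, lam i = μ i + c + if (i : ℕ) + 1 < m then 2 * m * k else 0) := by
  obtain ⟨F₀, F₁, F₂, a1, a2, a3, a4, a5⟩ := Ray.structure_B hm
  refine ⟨F₀, F₁, F₂, a1, a2, a3, a4, fun lam hl ⟨d, hd⟩ V _ _ _ ρ hp _ hw => ?_⟩
  rw [← a5 lam hl d hd, ← Ray.inv_iff (by omega) hl hd ρ hp hw]
  exact ⟨fun h ⟨v, h1, h2⟩ => h1 (h v h2), fun h v hv => by_contra fun h1 => h ⟨v, h1, hv⟩⟩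

end Pool.Agent.Results.MP_7ebc2a_al.RayStructure
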